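import Pool.Agent.helper55.FLD.Spec

/-! Row ID: subspaces stable under conjugation are ideals. -/

namespace Pool.Agent.FLD

open Matrix Topology Filter

/-- The main estimate. -/
theorem ID_approx (p : ℕ) [Fact p.Prime] (B : Type) [Ring B] [Algebra ℚ_[p] B] (R : Subring B)
    (G : Type) [Group G] (Φ : G →* B) (hΦ : ∀ g, Dv p R 2 (Φ g - 1)) (S : Submodule ℚ_[p] B)
    (hS : ∀ g : G, ∀ W ∈ S, Φ g * W * Φ g⁻¹ ∈ S) (Z : B) (hZ : Z ∈ TT p R Φ) (W : B) (hW : W ∈ S)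
    (hWR : W ∈ R) (i : ℕ) (hi : 2 ≤ i) : ∃ s ∈ S, Dv p R i (Z * W - W * Z - s) := by
  obtain ⟨hZR, hZ2⟩ := hZ
  obtain ⟨g, e, he, hg⟩ := hZ2 i hi
  have hc : ((p : ℚ_[p]) ^ i) ≠ 0 := ppow_ne i
  refine ⟨((p : ℚ_[p]) ^ i)⁻¹ • (Φ g * W * Φ g⁻¹ - W), S.smul_mem _ (S.sub_mem (hS g W hW) hW), ?_⟩
  have hxy : Φ g * Φ g⁻¹ = 1 := by rw [← map_mul, mul_inv_cancel, map_one]
  have hyR : Φ g⁻¹ ∈ R := mem_of_dv_sub_one (hΦ g⁻¹)
  have hx : Φ g - 1 = ((p : ℚ_[p]) ^ i) • Z + ((p : ℚ_[p]) ^ (2 * i)) • e := by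
    rw [← hg]; abel
  have hx1 : Dv p R i (Φ g - 1) := by
    rw [hx]
    exact Dv.add ⟨Z, hZR, rfl⟩ (Dv.mono ⟨e, he, rfl⟩ (by omega))
  have hy1 : Dv p R i (Φ g⁻¹ - 1) := hx1.inv_sub_one hyR hxy
  have hk : Z * W - W * Z ∈ R := R.sub_mem (R.mul_mem hZR hWR) (R.mul_mem hWR hZR)
  have hk' : e * W - W * e ∈ R := R.sub_mem (R.mul_mem he hWR) (R.mul_mem hWR he)
  rw [← dv_smul_iff i, smul_sub, smul_smul, mul_inv_cancel₀ hc, one_smul]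
  have h1 : Φ g * W * Φ g⁻¹ - W = ((Φ g - 1) * W - W * (Φ g - 1)) * Φ g⁻¹ := by
    have h2 : W = W * Φ g * Φ g⁻¹ := by rw [mul_assoc, hxy, mul_one]
    have h3 : (Φ g - 1) * W - W * (Φ g - 1) = Φ g * W - W * Φ g := by noncomm_ring
    rw [h3, sub_mul, ← h2]
  have h4 : (Φ g - 1) * W - W * (Φ g - 1) = ((p : ℚ_[p]) ^ i) • (Z * W - W * Z) +
      ((p : ℚ_[p]) ^ (2 * i)) • (e * W - W * e) := by
    rw [hx, add_mul, mul_add, smul_mul_assoc, smul_mul_assoc, mul_smul_comm, mul_smul_comm,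
      smul_sub, smul_sub]
    abel
  have h5 : ((p : ℚ_[p]) ^ i) • (Z * W - W * Z) - (Φ g * W * Φ g⁻¹ - W) =
      ((p : ℚ_[p]) ^ i) • (-((Z * W - W * Z) * (Φ g⁻¹ - 1))) -
        ((p : ℚ_[p]) ^ (2 * i)) • ((e * W - W * e) * Φ g⁻¹) := by
    rw [h1, h4]
    generalize Z * W - W * Z = A
    generalize e * W - W * e = D
    rw [add_mul, smul_mul_assoc, smul_mul_assoc, mul_sub, mul_one, neg_sub, smul_sub]
    abel
  rw [h5]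
  refine Dv.sub (Dv.smul i (hy1.mul_left hk).neg) ⟨(e * W - W * e) * Φ g⁻¹, R.mul_mem hk' hyR, ?_⟩
  rw [two_mul]

theorem ID : ID_stmt := by
  intro p _ B _ _ _ _ _ _ _ R hL G _ Φ hΦ S hS Z hZ W hW
  have hcl : IsClosed (S : Set B) := Submodule.closed_of_finiteDimensional S
  obtain ⟨k, hk⟩ := hL.abs W
  have hkS : ((p : ℚ_[p]) ^ k) • W ∈ S := S.smul_mem _ hW
  have hmain : Z * (((p : ℚ_[p]) ^ k) • W) - (((p : ℚ_[p]) ^ k) • W) * Z ∈ (S : Set B) := by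
    refine hL.mem_of_approx hcl fun i => ?_
    obtain ⟨s, hs, h⟩ := ID_approx p B R G Φ hΦ S hS Z hZ _ hkS hk (max i 2) (le_max_right _ _)
    exact ⟨s, hs, h.mono (le_max_left _ _)⟩
  have h2 : ((p : ℚ_[p]) ^ k) • (Z * W - W * Z) ∈ S := by
    have h1 : Z * (((p : ℚ_[p]) ^ k) • W) - (((p : ℚ_[p]) ^ k) • W) * Z ∈ S := hmain
    rw [smul_sub]
    simpa only [mul_smul_comm, smul_mul_assoc] using h1
  have h3 := S.smul_mem (((p : ℚ_[p]) ^ k)⁻¹) h2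
  rwa [smul_smul, inv_mul_cancel₀ (ppow_ne k), one_smul] at h3

end Pool.Agent.FLD
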